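import Pool.Agent.Lib.MP_93723f_co.Infinite

set_option autoImplicit false

namespace Pool.Agent.Results.MP_93723f_co.MoserRectanglePacking

open Pool.Agent.Lib.MP_93723f_co Complex

/-- Every family of rectangles (finite or countable, sides `p i`, `q i`) with sides at most `√2`
and total area at most `1` packs into the square of side `√2`: there are rigid motions
`z ↦ w i * z + c i` with `‖w i‖ = 1` of the plane mapping the rectangles `[0, p i] × [0, q i]`
into the square `[0, √2] × [0, √2]` with pairwise disjoint interiors. -/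
theorem result (ι : Type) (p q : ι → ℝ)
    (hp : ∀ i, 0 < p i ∧ p i ≤ √2) (hq : ∀ i, 0 < q i ∧ q i ≤ √2)
    (hsum : Summable fun i => p i * q i) (harea : ∑' i, p i * q i ≤ 1) :
    ∃ w c : ι → ℂ, (∀ i, ‖w i‖ = 1) ∧
      (∀ i, (fun z => w i * z + c i) '' (Set.Icc 0 (p i) ×ℂ Set.Icc 0 (q i))
        ⊆ Set.Icc 0 √2 ×ℂ Set.Icc 0 √2) ∧
      ∀ i j, i ≠ j →
        Disjoint (interior ((fun z => w i * z + c i) '' (Set.Icc 0 (p i) ×ℂ Set.Icc 0 (q i))))
          (interior ((fun z => w j * z + c j) '' (Set.Icc 0 (p j) ×ℂ Set.Icc 0 (q j)))) := by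
  classical
  have h2 : (0 : ℝ) < √2 := by positivity
  have h22 : √2 * √2 = (2 : ℝ) := Real.mul_self_sqrt (by norm_num)
  set a : ι → ℝ := fun i => max (p i) (q i) / √2 with ha
  set b : ι → ℝ := fun i => min (p i) (q i) / √2 with hb
  have hab : ∀ i, a i * b i = p i * q i / 2 := by
    intro i
    have : max (p i) (q i) * min (p i) (q i) = p i * q i := max_mul_min _ _
    rw [ha, hb]
    simp only
    rw [div_mul_div_comm, this, h22]
  obtain ⟨x, y, hxy1, hxy2⟩ := inf_pack a b
    (fun i => div_pos (lt_min (hp i).1 (hq i).1) h2)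
    (fun i => div_le_div_of_nonneg_right min_le_max h2.le)
    (fun i => by
      rw [ha]
      simp only
      rw [div_le_one h2]
      exact max_le (hp i).2 (hq i).2)
    (fun s => by
      rw [Finset.sum_congr rfl fun k _ => hab k, ← Finset.sum_div]
      have := hsum.sum_le_tsum s fun i _ => (mul_pos (hp i).1 (hq i).1).le
      linarith)
  have hamax : ∀ i, √2 * a i = max (p i) (q i) := by
    intro i; rw [ha]; simp only; field_simp
  have hbmin : ∀ i, √2 * b i = min (p i) (q i) := by
    intro i; rw [hb]; simp only; field_simp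
  -- the rigid motions
  let w : ι → ℂ := fun i => if q i ≤ p i then 1 else I
  let c : ι → ℂ := fun i => if q i ≤ p i then ⟨√2 * x i, √2 * y i⟩
    else ⟨√2 * x i + q i, √2 * y i⟩
  -- the image of a rectangle is contained in the rectangle of the packing
  have himg : ∀ i, (fun z => w i * z + c i) '' (Set.Icc 0 (p i) ×ℂ Set.Icc 0 (q i))
      ⊆ Set.Icc (√2 * x i) (√2 * x i + √2 * a i) ×ℂ
        Set.Icc (√2 * y i) (√2 * y i + √2 * b i) := by
    rintro i _ ⟨z, hz, rfl⟩
    rw [mem_reProdIm, Set.mem_Icc, Set.mem_Icc] at hz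
    obtain ⟨⟨z1, z2⟩, z3, z4⟩ := hz
    rw [hamax, hbmin]
    by_cases h : q i ≤ p i
    · rw [max_eq_left h, min_eq_right h]
      simp only [w, c, h, if_true]
      rw [mem_reProdIm]
      simp only [one_mul, add_re, add_im, Set.mem_Icc]
      refine ⟨⟨by linarith, by linarith⟩, by linarith, by linarith⟩
    · have h' : p i ≤ q i := (not_le.mp h).le
      rw [max_eq_right h', min_eq_left h']
      simp only [w, c, h, if_false]
      rw [mem_reProdIm]
      simp only [add_re, add_im, mul_re, mul_im, I_re, I_im, Set.mem_Icc]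
      refine ⟨⟨by linarith, by linarith⟩, by linarith, by linarith⟩
  refine ⟨w, c, ?_, ?_, ?_⟩
  · intro i
    simp only [w]
    split <;> simp
  · intro i
    refine (himg i).trans ?_
    intro z hz
    rw [mem_reProdIm, Set.mem_Icc, Set.mem_Icc] at hz ⊢
    obtain ⟨⟨z1, z2⟩, z3, z4⟩ := hz
    obtain ⟨g1, g2, g3, g4⟩ := hxy1 i
    have k1 : 0 ≤ √2 * x i := by positivity
    have k2 : 0 ≤ √2 * y i := by positivity
    have k3 : √2 * (x i + a i) ≤ √2 * 1 := mul_le_mul_of_nonneg_left g2 h2.le
    have k4 : √2 * (y i + b i) ≤ √2 * 1 := mul_le_mul_of_nonneg_left g4 h2.le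
    refine ⟨⟨by linarith, by linarith⟩, by linarith, by linarith⟩
  · intro i j hij
    rw [Set.disjoint_left]
    intro z hzi hzj
    have hi := interior_mono (himg i) hzi
    have hj := interior_mono (himg j) hzj
    rw [interior_reProdIm, mem_reProdIm, interior_Icc, interior_Icc, Set.mem_Ioo,
      Set.mem_Ioo] at hi hj
    obtain ⟨⟨i1, i2⟩, i3, i4⟩ := hi
    obtain ⟨⟨j1, j2⟩, j3, j4⟩ := hj
    have sc : ∀ s t r : ℝ, s + t ≤ r → √2 * s + √2 * t ≤ √2 * r := by
      intro s t r h
      have := mul_le_mul_of_nonneg_left h h2.le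
      linarith
    rcases hxy2 i j hij with h | h | h | h
    · have := sc _ _ _ h
      linarith
    · have := sc _ _ _ h
      linarith
    · have := sc _ _ _ h
      linarith
    · have := sc _ _ _ h
      linarith

end Pool.Agent.Results.MP_93723f_co.MoserRectanglePacking
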